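import Pool.Agent.ACK.StmtsB

set_option autoImplicit false

namespace Pool.Agent.ACK.H21

open Pool.Agent.ACK Pool.Agent.ACK.B

theorem cr_eq {n : ℕ} (w : ZMod n → ℕ) (s s' : ℕ → Bool) (h : ∀ i, s (w i) = s' (w i)) :
    CR w s = CR w s' := by
  funext p q
  apply propext
  constructor
  · rintro ⟨i, j, hij, hw, hh⟩
    refine ⟨i, j, hij, hw, ?_⟩
    rw [← h i]
    exact hh
  · rintro ⟨i, j, hij, hw, hh⟩
    refine ⟨i, j, hij, hw, ?_⟩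
    rw [h i]
    exact hh

theorem crc : CrcStmt := by
  intro n w s s'
  refine ⟨?_, ?_, ?_, ?_⟩
  · rintro x p q ⟨i, j, hij, hi, hj, hh⟩
    constructor
    · rcases hh with ⟨hs, (⟨hp, hq⟩ | ⟨hp, hq⟩)⟩ | ⟨hs, hh⟩
      · exact Quot.sound ⟨i, j, hij, by rw [hi, hj], Or.inl ⟨by rw [hi]; exact hs, hp, hq⟩⟩
      · exact (Quot.sound ⟨i, j, hij, by rw [hi, hj], Or.inl ⟨by rw [hi]; exact hs, hq, hp⟩⟩).symm
      · exact Quot.sound ⟨i, j, hij, by rw [hi, hj], Or.inr ⟨by rw [hi]; exact hs, hh⟩⟩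
    · rcases hh with ⟨hs, (⟨hp, hq⟩ | ⟨hp, hq⟩)⟩ | ⟨hs, (⟨hp, hq⟩ | ⟨hp, hq⟩)⟩
      · exact ⟨i, j, hij, hi, hj, Or.inl ⟨hs, Or.inr ⟨hq, hp⟩⟩⟩
      · exact ⟨i, j, hij, hi, hj, Or.inl ⟨hs, Or.inl ⟨hq, hp⟩⟩⟩
      · exact ⟨j, i, hij.symm, hj, hi, Or.inr ⟨hs, Or.inl ⟨hq, hp⟩⟩⟩
      · exact ⟨j, i, hij.symm, hj, hi, Or.inr ⟨hs, Or.inr ⟨hq, hp⟩⟩⟩
  · rintro x p q ⟨i, j, hij, hi, hj, hh⟩
    constructor
    · intro h
      refine ⟨i, j, hij, hi, hj, ?_⟩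
      rw [← h]
      exact hh
    · intro h
      have h1 : op s' x = s x := by
        unfold op
        cases hx : s x <;> cases hx' : s' x <;> simp_all
      refine ⟨i, j, hij, hi, hj, ?_⟩
      rw [h1]
      exact hh
  · intro h
    have h1 := cr_eq w s s' h
    have h2 : CR w (op s) = CR w (op s') := cr_eq w _ _ (fun i => by
      unfold op
      rw [h i])
    refine ⟨h1, ?_, ?_⟩
    · unfold nc
      rw [h1]
    · unfold nc
      rw [h2]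
  · funext x
    simp [op]

end Pool.Agent.ACK.H21
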