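import Pool.Agent.ACK.StmtsC

set_option autoImplicit false

namespace Pool.Agent.ACK.H21

open Pool.Agent.ACK Pool.Agent.ACK.C

/-- the length of the first `j` blocks -/
def PL (C : ℕ → List ℕ) (b : List Tk) (j : ℕ) : ℕ := (BL C (b.take j)).length

theorem BL_append (C : ℕ → List ℕ) (b1 b2 : List Tk) : BL C (b1 ++ b2) = BL C b1 ++ BL C b2 := by
  unfold BL
  exact List.flatMap_append

theorem tk_eq (b : List Tk) (k : ℕ) (hk : k < b.length) : tk b k = b[k] := by
  unfold tk
  exact List.getD_eq_getElem _ _ hk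

theorem take_succ_tk (b : List Tk) (k : ℕ) (hk : k < b.length) :
    b.take (k + 1) = b.take k ++ [tk b k] := by
  rw [tk_eq b k hk, List.take_succ_eq_append_getElem hk]

theorem split_tk (b : List Tk) (k : ℕ) (hk : k < b.length) :
    b = b.take k ++ tk b k :: b.drop (k + 1) := by
  rw [tk_eq b k hk]
  conv_lhs => rw [← List.take_append_drop k b]
  rw [List.drop_eq_getElem_cons hk]

theorem BL_single (C : ℕ → List ℕ) (t : Tk) : BL C [t] = bk C t := by
  simp [BL]

theorem PL_zero (C : ℕ → List ℕ) (b : List Tk) : PL C b 0 = 0 := by simp [PL, BL]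

theorem PL_full (C : ℕ → List ℕ) (b : List Tk) : PL C b b.length = (BL C b).length := by
  simp [PL]

theorem PL_succ (C : ℕ → List ℕ) (b : List Tk) (k : ℕ) (hk : k < b.length) :
    PL C b (k + 1) = PL C b k + (bk C (tk b k)).length := by
  unfold PL
  rw [take_succ_tk b k hk, BL_append, BL_single, List.length_append]

theorem bk_ne (C : ℕ → List ℕ) (b : List Tk) (h : CW C b) (k : ℕ) (hk : k < b.length) :
    bk C (tk b k) ≠ [] := by
  have h1 : tk b k ∈ b := by
    rw [tk_eq b k hk]
    exact List.getElem_mem hk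
  have h2 := h.ne _ h1
  unfold bk
  split
  · simpa using h2
  · exact h2

theorem bk_pos (C : ℕ → List ℕ) (b : List Tk) (h : CW C b) (k : ℕ) (hk : k < b.length) :
    1 ≤ (bk C (tk b k)).length := List.length_pos_iff.2 (bk_ne C b h k hk)

theorem PL_mono (C : ℕ → List ℕ) (b : List Tk) (h : CW C b) (j k : ℕ) (hjk : j < k)
    (hk : k ≤ b.length) : PL C b j < PL C b k := by
  induction k with
  | zero => omega
  | succ k ih =>
    have h1 := PL_succ C b k (by omega)
    have h2 := bk_pos C b h k (by omega)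
    rcases Nat.lt_succ_iff_lt_or_eq.1 hjk with h3 | h3
    · have := ih h3 (by omega)
      omega
    · subst h3
      omega

theorem gp_val (c : ℕ) (C : ℕ → List ℕ) (b : List Tk) (hc : 1 ≤ c) (h : CW C b)
    (hl : (BL C b).length = 2 * c) (k : ℕ) (hk : k < b.length) :
    gp c C b k = ((PL C b (k + 1) - 1 : ℕ) : ZMod (2 * c)) ∧ PL C b (k + 1) - 1 < 2 * c ∧
      1 ≤ PL C b (k + 1) ∧ PL C b (k + 1) ≤ 2 * c := by
  have h0 : PL C b 0 < PL C b (k + 1) := PL_mono C b h 0 (k + 1) (by omega) (by omega)
  rw [PL_zero] at h0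
  have h1 : PL C b (k + 1) ≤ 2 * c := by
    rw [← hl, ← PL_full]
    rcases Nat.lt_or_ge (k + 1) b.length with h2 | h2
    · exact (PL_mono C b h _ _ h2 le_rfl).le
    · have : k + 1 = b.length := by omega
      rw [this]
  refine ⟨?_, by omega, h0, h1⟩
  unfold gp
  have h2 : (BL C (b.take (k + 1))).length = PL C b (k + 1) := rfl
  rw [h2, Nat.cast_sub (by omega)]
  simp

theorem getD_prefix (l A B : List ℕ) (x : ℕ) (h : l = A ++ x :: B) : l.getD A.length 0 = x := by
  subst h
  simp [List.getD]

theorem wd_natCast (c : ℕ) (l : List ℕ) (m : ℕ) (hm : m < 2 * c) :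
    wd c l ((m : ℕ) : ZMod (2 * c)) = l.getD m 0 := by
  haveI : NeZero (2 * c) := ⟨by omega⟩
  unfold wd
  rw [ZMod.val_natCast_of_lt hm]

theorem letRow : LetStmt := by
  intro c C b hc hcw hl k hk
  have hn : 0 < b.length := by omega
  obtain ⟨g1, g2, g3, g4⟩ := gp_val c C b hc hcw hl k hk
  have hfull : PL C b b.length = 2 * c := by rw [PL_full, hl]
  have h2c : ((2 * c : ℕ) : ZMod (2 * c)) = 0 := ZMod.natCast_self (2 * c)
  -- the next gap start
  have hg1 : gp c C b k + 1 = ((PL C b (k + 1) : ℕ) : ZMod (2 * c)) := by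
    rw [g1, Nat.cast_sub g3]
    simp
  refine ⟨?_, ?_, ?_⟩
  · have hk1 : (k + 1) % b.length < b.length := Nat.mod_lt _ hn
    have hx := bk_ne C b hcw k hk
    have hy := bk_ne C b hcw _ hk1
    obtain ⟨X, x, hX⟩ : ∃ X x, bk C (tk b k) = X ++ [x] :=
      ⟨_, _, (List.dropLast_append_getLast hx).symm⟩
    obtain ⟨y, Y, hY⟩ := List.exists_cons_of_ne_nil hy
    refine ⟨x, y, X, Y, hX, hY, ?_, ?_⟩
    · rw [g1, wd_natCast c _ _ g2]
      have h1 : BL C b = (BL C (b.take k) ++ X) ++ x :: BL C (b.drop (k + 1)) := by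
        conv_lhs => rw [split_tk b k hk]
        rw [show b.take k ++ tk b k :: b.drop (k + 1) =
          b.take k ++ ([tk b k] ++ b.drop (k + 1)) from rfl, BL_append, BL_append, BL_single, hX]
        simp
      have h2 := getD_prefix (BL C b) _ _ _ h1
      have h3 : (BL C (b.take k) ++ X).length = PL C b (k + 1) - 1 := by
        rw [PL_succ C b k hk, hX]
        simp [PL]
      rw [h3] at h2
      exact h2
    · rw [hg1]
      rcases Nat.lt_or_ge (k + 1) b.length with h1 | h1
      · have hmod : (k + 1) % b.length = k + 1 := Nat.mod_eq_of_lt h1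
        rw [hmod] at hY
        have hlt : PL C b (k + 1) < 2 * c := by
          rw [← hfull]
          exact PL_mono C b hcw _ _ h1 le_rfl
        rw [wd_natCast c _ _ hlt]
        have h2 : BL C b = BL C (b.take (k + 1)) ++ y :: (Y ++ BL C (b.drop (k + 1 + 1))) := by
          conv_lhs => rw [split_tk b (k + 1) h1]
          rw [show b.take (k + 1) ++ tk b (k + 1) :: b.drop (k + 1 + 1) =
            b.take (k + 1) ++ ([tk b (k + 1)] ++ b.drop (k + 1 + 1)) from rfl, BL_append,
            BL_append, BL_single, hY]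
          simp
        exact getD_prefix (BL C b) _ _ _ h2
      · have hk2 : k + 1 = b.length := by omega
        have hmod : (k + 1) % b.length = 0 := by rw [hk2, Nat.mod_self]
        rw [hmod] at hY
        have h0 : ((PL C b (k + 1) : ℕ) : ZMod (2 * c)) = ((0 : ℕ) : ZMod (2 * c)) := by
          rw [hk2, hfull, h2c]
          simp
        rw [h0, wd_natCast c _ 0 (by omega)]
        have h2 : BL C b = [] ++ y :: (Y ++ BL C (b.drop (0 + 1))) := by
          conv_lhs => rw [split_tk b 0 hn]
          rw [show b.take 0 ++ tk b 0 :: b.drop (0 + 1) =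
            [] ++ ([tk b 0] ++ b.drop (0 + 1)) from rfl, List.nil_append, BL_append,
            BL_single, hY]
          simp
        exact getD_prefix (BL C b) _ _ _ h2
  · rcases Nat.lt_or_ge (k + 1) b.length with h1 | h1
    · have hmod : (k + 1) % b.length = k + 1 := Nat.mod_eq_of_lt h1
      rw [hmod]
      have h2 : gp c C b (k + 1) = ((PL C b (k + 1 + 1) : ℕ) : ZMod (2 * c)) - 1 := rfl
      have h3 : gp c C b k = ((PL C b (k + 1) : ℕ) : ZMod (2 * c)) - 1 := rfl
      rw [h2, h3, PL_succ C b (k + 1) h1]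
      push_cast
      ring
    · have hk2 : k + 1 = b.length := by omega
      have hmod : (k + 1) % b.length = 0 := by rw [hk2, Nat.mod_self]
      rw [hmod]
      have h2 : gp c C b 0 = ((PL C b (0 + 1) : ℕ) : ZMod (2 * c)) - 1 := rfl
      have h3 : gp c C b k = ((PL C b (k + 1) : ℕ) : ZMod (2 * c)) - 1 := rfl
      rw [h2, h3, PL_succ C b 0 hn, PL_zero, hk2, hfull, h2c]
      push_cast
      ring
  · intro k' hk' he
    obtain ⟨e1, e2, e3, e4⟩ := gp_val c C b hc hcw hl k' hk'
    rw [hg1, e1] at he
    haveI : NeZero (2 * c) := ⟨by omega⟩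
    rcases Nat.lt_or_ge (k + 1) b.length with h1 | h1
    · have hmod : (k + 1) % b.length = k + 1 := Nat.mod_eq_of_lt h1
      have hlt : PL C b (k + 1) < 2 * c := by
        rw [← hfull]
        exact PL_mono C b hcw _ _ h1 le_rfl
      have h2 := congrArg ZMod.val he
      rw [ZMod.val_natCast_of_lt hlt, ZMod.val_natCast_of_lt e2] at h2
      rw [hmod]
      have h3 : ¬ k' + 1 ≤ k + 1 := by
        intro h4
        rcases Nat.lt_or_ge (k' + 1) (k + 1) with h5 | h5
        · have := PL_mono C b hcw _ _ h5 (by omega)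
          omega
        · have : k' + 1 = k + 1 := by omega
          rw [this] at h2 e3
          omega
      have h4 : ¬ k + 1 + 1 < k' + 1 := by
        intro h5
        have h6 := PL_mono C b hcw _ _ h5 (by omega)
        have h7 := PL_mono C b hcw (k + 1) (k + 1 + 1) (by omega) (by omega)
        omega
      omega
    · have hk2 : k + 1 = b.length := by omega
      have hmod : (k + 1) % b.length = 0 := by rw [hk2, Nat.mod_self]
      rw [hmod]
      have h0 : ((PL C b (k + 1) : ℕ) : ZMod (2 * c)) = ((0 : ℕ) : ZMod (2 * c)) := by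
        rw [hk2, hfull, h2c]
        simp
      rw [h0] at he
      have h2 := congrArg ZMod.val he
      rw [ZMod.val_natCast_of_lt (by omega : 0 < 2 * c), ZMod.val_natCast_of_lt e2] at h2
      by_contra h3
      have h4 := PL_mono C b hcw (0 + 1) (k' + 1) (by omega) (by omega)
      have h5 := PL_mono C b hcw 0 (0 + 1) (by omega) (by omega)
      omega

end Pool.Agent.ACK.H21
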