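import Pool.Agent.ACK.StmtsA

set_option autoImplicit false

namespace Pool.Agent.ACK.H21

open Pool.Agent.ACK

theorem z2 : ∀ a b : ZMod 2, a + b = 0 → b = a := by decide

theorem z2' : ∀ a b : ZMod 2, a + b = 1 → a ≠ b := by decide

theorem prw : PrwStmt := by
  intro c l hK hc u hu p q hpq hj
  have hn0 : NeZero (2 * c) := ⟨by omega⟩
  wlog hlt : p.val < q.val generalizing p q
  · refine this q p hpq.symm (fun i => ?_) ?_
    · rw [hj i]
      simp only [or_comm]
    · have h1 : p.val ≠ q.val := fun h => hpq (ZMod.val_injective _ h)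
      omega
  have hQ : q.val < (2 * c) := ZMod.val_lt q
  have hlen : l.length = (2 * c) := hK.len
  -- values
  have hval : ∀ k : ℕ, ∀ r : ZMod (2 * c), k % (2 * c) ≠ r.val → (k : ZMod (2 * c)) ≠ r := by
    intro k r hk h
    apply hk
    rw [← h, ZMod.val_natCast]
  have hstep : ∀ k : ℕ, k % (2 * c) ≠ p.val → k % (2 * c) ≠ q.val →
      u ((k + 1 : ℕ) : ZMod (2 * c)) = u (k : ZMod (2 * c)) := by
    intro k h1 h2
    have h := hj (k : ZMod (2 * c))
    rw [if_neg (by
      rintro (h3 | h3)
      · exact hval k p h1 h3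
      · exact hval k q h2 h3)] at h
    have h4 := z2 _ _ h
    rw [← h4]
    push_cast
    rfl
  have key1 : ∀ k : ℕ, p.val + 1 ≤ k → k ≤ q.val →
      u (k : ZMod (2 * c)) = u ((p.val + 1 : ℕ) : ZMod (2 * c)) := by
    intro k hk
    induction k, hk using Nat.le_induction with
    | base => intro _; rfl
    | succ k hk ih =>
      intro hk2
      rw [hstep k, ih (by omega)]
      · rw [Nat.mod_eq_of_lt (by omega)]; omega
      · rw [Nat.mod_eq_of_lt (by omega)]; omega
  have key2 : ∀ k : ℕ, q.val + 1 ≤ k → k ≤ p.val + (2 * c) →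
      u (k : ZMod (2 * c)) = u ((q.val + 1 : ℕ) : ZMod (2 * c)) := by
    intro k hk
    induction k, hk using Nat.le_induction with
    | base => intro _; rfl
    | succ k hk ih =>
      intro hk2
      have hmod : k % (2 * c) ≠ p.val ∧ k % (2 * c) ≠ q.val := by
        rcases Nat.lt_or_ge k (2 * c) with h | h
        · rw [Nat.mod_eq_of_lt h]
          omega
        · have h1 : k % (2 * c) = k - (2 * c) := by
            rw [Nat.mod_eq_sub_mod h, Nat.mod_eq_of_lt (by omega)]
          rw [h1]
          omega
      rw [hstep k hmod.1 hmod.2, ih (by omega)]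
  have hjq : u ((q.val : ℕ) : ZMod (2 * c)) ≠ u ((q.val + 1 : ℕ) : ZMod (2 * c)) := by
    have h := hj q
    rw [if_pos (Or.inr rfl)] at h
    have h1 := z2' _ _ h
    have h2 : ((q.val : ℕ) : ZMod (2 * c)) = q := ZMod.natCast_zmod_val q
    push_cast
    rw [h2]
    exact h1
  -- the two parts of the word
  obtain ⟨x, hxa, hxb⟩ := hK.pr (p.val + 1) ((l.rotate (p.val + 1)).take (q.val - p.val))
    ((l.rotate (p.val + 1)).drop (q.val - p.val)) (List.take_append_drop _ _).symm
    (by
      intro h
      have h1 := congrArg List.length h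
      rw [List.length_take, List.length_rotate, hlen] at h1
      simp only [List.length_nil] at h1
      omega)
    (by
      intro h
      have h1 := congrArg List.length h
      rw [List.length_drop, List.length_rotate, hlen] at h1
      simp only [List.length_nil] at h1
      omega)
  rw [List.mem_iff_getElem] at hxa hxb
  obtain ⟨t, ht, hta⟩ := hxa
  obtain ⟨t', ht', htb⟩ := hxb
  rw [List.length_take, List.length_rotate, hlen] at ht
  rw [List.length_drop, List.length_rotate, hlen] at ht'
  rw [List.getElem_take, List.getElem_rotate] at hta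
  rw [List.getElem_drop, List.getElem_rotate] at htb
  have hw : ∀ k : ℕ, ∀ h : k % l.length < l.length, wd c l ((k : ℕ) : ZMod (2 * c)) = l[k % l.length] := by
    intro k h
    unfold wd
    have h1 : ((k : ℕ) : ZMod (2 * c)).val = k % l.length := by
      rw [ZMod.val_natCast, hlen]
    rw [h1, List.getD_eq_getElem _ _ h]
  have hlpos : 0 < l.length := by omega
  have e1 : wd c l ((t + (p.val + 1) : ℕ) : ZMod (2 * c)) = x := by
    rw [hw _ (Nat.mod_lt _ hlpos)]
    exact hta
  have e2 : wd c l ((q.val - p.val + t' + (p.val + 1) : ℕ) : ZMod (2 * c)) = x := by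
    rw [hw _ (Nat.mod_lt _ hlpos)]
    exact htb
  have e3 := hu _ _ (e1.trans e2.symm)
  rw [key1 (t + (p.val + 1)) (by omega) (by omega),
    key2 (q.val - p.val + t' + (p.val + 1)) (by omega) (by omega)] at e3
  rw [key1 q.val (by omega) le_rfl] at hjq
  exact hjq e3

end Pool.Agent.ACK.H21
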